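import Pool.Agent.N396.ZK.Stm

/-!
# From matrices to graphs
-/

set_option autoImplicit false

namespace Pool.Agent.N603.ZK

open Finset Classical
open Pool.Agent.N396.ZK

lemma com_lt {α β : Type} [Fintype β] {R : α → β → Prop} {s t : ℕ}
    (h : ∀ (A : Finset α) (B : Finset β), A.card = s → B.card = t → ∃ i ∈ A, ∃ j ∈ B, ¬ R i j)
    (A : Finset α) (hA : A.card = s) : (com R univ A).card < t := by
  by_contra hc
  push Not at hc
  obtain ⟨B, hB, hBt⟩ := exists_subset_card_eq hc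
  obtain ⟨i, hi, j, hj, hR⟩ := h A B hA hBt
  have h1 := hB hj
  unfold com at h1
  rw [mem_filter] at h1
  exact hR (h1.2 i hi)

theorem mat_of (s t : ℕ) (h : StmZ s t) : StmM s t := by
  obtain ⟨δ, K, hδ, hK, h⟩ := h
  refine ⟨δ, K, hδ, hK, fun m n R h1 h2 h3 => ?_⟩
  have h4 := h (Fin m) (Fin n) R (by rwa [Fintype.card_fin]) (by rwa [Fintype.card_fin, Fintype.card_fin])
    (fun A hA => com_lt h3 A hA)
  rw [Fintype.card_fin, Fintype.card_fin] at h4
  refine le_trans (le_of_eq ?_) h4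
  rw [Nat.card_eq_fintype_card, Fintype.card_subtype, card_filter, Fintype.sum_prod_type]
  push_cast
  refine sum_congr rfl fun x _ => ?_
  unfold row
  rw [card_filter]
  push_cast
  rfl

lemma pow_split {s n : ℕ} (hn : 0 < n) :
    (n : ℝ) ^ (1 / (s : ℝ)) * (n : ℝ) ^ (1 - 1 / (s : ℝ)) = n := by
  have hn' : (0:ℝ) < n := by exact_mod_cast hn
  rw [← Real.rpow_add hn', add_sub_cancel, Real.rpow_one]

lemma free_bot {s t : ℕ} (hs : 2 ≤ s) (ht : 1 ≤ t) (n : ℕ) :
    (completeBipartiteGraph (Fin s) (Fin t)).Free (⊥ : SimpleGraph (Fin n)) := by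
  rintro ⟨f⟩
  have h1 : (completeBipartiteGraph (Fin s) (Fin t)).Adj (Sum.inl ⟨0, by omega⟩) (Sum.inr ⟨0, by omega⟩) := by
    simp [completeBipartiteGraph]
  have h2 := f.toHom.map_adj h1
  exact h2

theorem graph_of (s t : ℕ) (hs : 2 ≤ s) (ht : 1 ≤ t) (h : StmZ s t) : StmG s t := by
  obtain ⟨δ, K, hδ, hK, h⟩ := h
  have hs0 : (0:ℝ) < s := by exact_mod_cast (by omega : 0 < s)
  refine ⟨δ, hδ, ⌈max K (K ^ s)⌉₊ + 1, fun n hn => ?_⟩
  have hn1 : max K (K ^ s) ≤ n := by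
    refine (Nat.le_ceil _).trans ?_
    exact_mod_cast (by omega : ⌈max K (K ^ s)⌉₊ ≤ n)
  have hn0 : 0 < n := by omega
  have hn' : (0:ℝ) < n := by exact_mod_cast hn0
  have hKn : K ≤ n := (le_max_left _ _).trans hn1
  have hKs : K ≤ (n:ℝ) ^ (1 / (s:ℝ)) := by
    have h1 : K ^ s ≤ n := (le_max_right _ _).trans hn1
    have h2 : (K ^ s) ^ (1 / (s:ℝ)) = K := by
      rw [one_div]
      exact Real.pow_rpow_inv_natCast hK.le (by omega)
    calc K = (K ^ s) ^ (1 / (s:ℝ)) := h2.symm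
      _ ≤ (n:ℝ) ^ (1 / (s:ℝ)) := Real.rpow_le_rpow (by positivity) h1 (by positivity)
  have hKn2 : K * (n:ℝ) ^ (1 - 1 / (s:ℝ)) ≤ n := by
    calc K * (n:ℝ) ^ (1 - 1 / (s:ℝ)) ≤ (n : ℝ) ^ (1 / (s : ℝ)) * (n : ℝ) ^ (1 - 1 / (s : ℝ)) :=
          mul_le_mul_of_nonneg_right hKs (by positivity)
      _ = n := pow_split hn0
  have hmain : ∀ (G : SimpleGraph (Fin n)) [DecidableRel G.Adj],
      (completeBipartiteGraph (Fin s) (Fin t)).Free G →
      (G.edgeFinset.card : ℝ) ≤ (1 - δ) / 2 * ((t : ℝ) - s + 1) ^ (1 / (s : ℝ)) * (n : ℝ) ^ (2 - 1 / (s : ℝ)) := by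
    intro G _ hG
    have h4 := h (Fin n) (Fin n) G.Adj (by rwa [Fintype.card_fin]) (by rwa [Fintype.card_fin])
      (fun A hA => com_lt (fun A B hA hB => by
        by_contra hc
        push Not at hc
        apply hG
        rw [SimpleGraph.completeBipartiteGraph_isContained_iff]
        refine ⟨A, B, by rw [hA, Fintype.card_fin], by rw [hB, Fintype.card_fin], ?_⟩
        intro a ha b hb
        exact hc a ha b hb) A hA)
    rw [Fintype.card_fin] at h4
    have h5 : ∑ x, ((row G.Adj univ x).card : ℝ) = 2 * (G.edgeFinset.card : ℝ) := by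
      have h6 := G.sum_degrees_eq_twice_card_edges
      have h7 : ∀ x, (row G.Adj univ x).card = G.degree x := by
        intro x
        rw [← G.card_neighborFinset_eq_degree]
        congr 1
        ext y
        unfold row
        simp
      simp_rw [h7]
      exact_mod_cast h6
    rw [h5] at h4
    have h8 : (n : ℝ) ^ (2 - 1 / (s : ℝ)) = n * (n : ℝ) ^ (1 - 1 / (s : ℝ)) := by
      rw [← Real.rpow_one_add' hn'.le]
      · congr 1; ring
      · have : 1 / (s:ℝ) ≤ 1 := by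
          rw [div_le_one hs0]
          exact_mod_cast (by omega : 1 ≤ s)
        linarith
    rw [h8]
    linarith
  have h0 := hmain ⊥ (free_bot hs ht n)
  have h0' : (0:ℝ) ≤ (1 - δ) / 2 * ((t : ℝ) - s + 1) ^ (1 / (s : ℝ)) * (n : ℝ) ^ (2 - 1 / (s : ℝ)) :=
    le_trans (Nat.cast_nonneg _) h0
  have h9 := (SimpleGraph.extremalNumber_le_iff_of_nonneg (V := Fin n) (completeBipartiteGraph (Fin s) (Fin t)) h0').mpr
    (fun G _ hG => hmain G hG)
  rw [Fintype.card_fin] at h9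
  exact h9

end Pool.Agent.N603.ZK
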